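import Pool.Agent.Helper15.AF.Goals2
import Pool.Agent.Helper32.DT.HYB

/-!
# Packet AF-HYM: the hybrid argument for a tuple of lists and linear forms
-/

namespace Pool.Agent.Helper45.AF

open Pool.Agent.Helper78.DT
open Pool.Agent.Helper32.DT
open Pool.Agent.Helper15.AF
open Pool.Agent.Helper51.ZP

open scoped Classical

/-- The value of a linear form at a mixed string. -/
theorem dot_mix {n K : ℕ} (h : Fin n → Fin K) (J : Fin K) (y c : Fin n → Bool)
    (a : Fin n → ZMod 2) :
    dot (fun v => if h v = J then a v else 0) y +
      (∑ v, if h v = J then 0 else a v * b2z (c v)) = dot a (mix h J y c) := by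
  unfold dot mix
  rw [← Finset.sum_add_distrib]
  refine Finset.sum_congr rfl fun v _ => ?_
  by_cases h1 : h v = J
  · simp only [if_pos h1, add_zero]
  · simp only [if_neg h1, zero_mul, zero_add]

theorem hym : HymStmt := by
  intro n K t r ρ S _ _ G δ H A h hδ hG f hf
  let E : (Fin n → Bool) → Prop := fun x =>
    H (fun i => ev (f i) x) (fun i => dot (A i) x) = true
  let X : ℕ → (Fin K → S) → (Fin n → Bool) → (Fin n → Bool) := fun j s u v =>
    if (h v : ℕ) < j then G (s (h v)) v else u v
  let a : ℕ → ℝ := fun j => av fun s : Fin K → S => pr fun u : Fin n → Bool => E (X j s u)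
  have hstep : ∀ j, j < K → |a (j + 1) - a j| ≤ δ := by
    intro j hj
    let J : Fin K := ⟨j, hj⟩
    let Z : (Fin K → S) → (Fin n → Bool) → (Fin n → Bool) := fun s u v =>
      if (h v : ℕ) < j then G (s (h v)) v else u v
    have e1 : a (j + 1) = av fun s : Fin K → S => av fun u : Fin n → Bool =>
        pr fun σ : S => E (mix h J (G σ) (Z s u)) := by
      have r1 := av_invol (Ω := Fin K → S) (Ω' := S)
        (fun p => (Function.update p.1 J p.2, p.1 J)) (by
          rintro ⟨s, σ⟩
          simp) (fun s => pr fun u : Fin n → Bool => E (X (j + 1) s u))
      change (av fun s : Fin K → S => pr fun u : Fin n → Bool => E (X (j + 1) s u)) = _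
      rw [← r1]
      refine av_congr fun s => ?_
      rw [show (av fun u : Fin n → Bool => pr fun σ : S =>
          E (mix h J (G σ) (Z s u))) =
          av fun σ : S => pr fun u : Fin n → Bool => E (mix h J (G σ) (Z s u)) from
          av_comm _]
      refine av_congr fun σ => pr_congr fun u => ?_
      have : X (j + 1) (Function.update s J σ) u = mix h J (G σ) (Z s u) := by
        funext v
        simp only [X, mix, Z]
        by_cases h1 : h v = J
        · have h2 : (h v : ℕ) < j + 1 := by rw [h1]; exact Nat.lt_succ_self j
          rw [if_pos h2, if_pos h1, h1, Function.update_self]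
        · rw [if_neg h1, Function.update_of_ne h1]
          have h3 : (h v : ℕ) ≠ j := fun h4 => h1 (Fin.ext h4)
          by_cases h2 : (h v : ℕ) < j
          · rw [if_pos h2, if_pos (by omega)]
          · rw [if_neg h2, if_neg (by omega)]
      rw [this]
    have e2 : a j = av fun s : Fin K → S => av fun u : Fin n → Bool =>
        pr fun y : Fin n → Bool => E (mix h J y (Z s u)) := by
      change (av fun s : Fin K → S => pr fun u : Fin n → Bool => E (X j s u)) = _
      refine av_congr fun s => ?_
      have r1 := pr_invol (Ω := Fin n → Bool) (Ω' := Fin n → Bool)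
        (fun p => (mix h J p.2 p.1, mix h J p.1 p.2)) (by
          rintro ⟨u, y⟩
          refine Prod.ext ?_ ?_
          · funext v
            simp only [mix]
            split_ifs <;> rfl
          · funext v
            simp only [mix]
            split_ifs <;> rfl) (fun u => E (X j s u))
      refine Eq.trans r1.symm ?_
      refine av_congr fun u => pr_congr fun y => ?_
      have : X j s (mix h J y u) = mix h J y (Z s u) := by
        funext v
        simp only [X, mix, Z]
        by_cases h1 : h v = J
        · have h2 : ¬ ((h v : ℕ) < j) := by rw [h1]; exact lt_irrefl j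
          rw [if_neg h2]
          simp [h1]
        · simp [h1]
      change E (X j s (mix h J y u)) ↔ _
      rw [this]
    rw [e1, e2, ← av_sub]
    refine (abs_av_le _).trans (av_le_of_le hδ fun s => ?_)
    rw [← av_sub]
    refine (abs_av_le _).trans (av_le_of_le hδ fun u => ?_)
    have h1 := hG J (fun i => res h J (Z s u) (f i))
      (fun i => ∑ v, if h v = J then 0 else A i v * b2z (Z s u v))
      fun i => wid_res t h J (Z s u) (f i) (hf i)
    simp only [ev_res, dot_mix] at h1
    exact h1
  have h0 : a 0 = pr fun x : Fin n → Bool => E x := by
    have : ∀ s : Fin K → S, (pr fun u : Fin n → Bool => E (X 0 s u)) =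
        pr fun x : Fin n → Bool => E x := by
      intro s
      refine pr_congr fun u => ?_
      have : X 0 s u = u := by
        funext v
        simp [X]
      rw [this]
    change (av fun s : Fin K → S => pr fun u : Fin n → Bool => E (X 0 s u)) = _
    rw [av_congr this, av_const]
  have hK : a K = pr fun s : Fin K → S => E (fun v => G (s (h v)) v) := by
    change (av fun s : Fin K → S => pr fun u : Fin n → Bool => E (X K s u)) = _
    refine av_congr fun s => ?_
    have : ∀ u : Fin n → Bool, X K s u = fun v => G (s (h v)) v := by
      intro u
      funext v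
      simp [X]
    have h5 : (pr fun u : Fin n → Bool => E (X K s u)) =
        pr fun _ : Fin n → Bool => E (fun v => G (s (h v)) v) := by
      refine pr_congr fun u => ?_
      rw [this]
    rw [h5, pr_cst]
  have hind : ∀ j, j ≤ K → |a j - a 0| ≤ j * δ := by
    intro j
    induction j with
    | zero => intro _; simp
    | succ j ih =>
      intro hj
      have h1 := ih (by omega)
      have h2 := hstep j (by omega)
      have h3 : a (j + 1) - a 0 = (a (j + 1) - a j) + (a j - a 0) := by ring
      rw [h3]
      refine (abs_add_le _ _).trans ?_
      push_cast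
      linarith
  have := hind K le_rfl
  rw [hK, h0] at this
  exact this

end Pool.Agent.Helper45.AF
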