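import Pool.Agent.Helper15.AF.Goals3
import Pool.Agent.Helper3.JT.TLJ
import Pool.Agent.Helper8.DT.NPRCPW

/-!
# Packet AF-PM1: the sizes of the parameters
-/

namespace Pool.Agent.Helper45.AF

open Pool.Agent.Helper78.DT Pool.Agent.Helper78.JT Pool.Agent.Helper15.AF

theorem pm1 : Pm1Stmt := by
  have hT : TljStmt := Pool.Agent.Helper3.JT.tlj
  have hN : NprStmt := Pool.Agent.Helper8.DT.npr
  intro c a e ha
  set b := bb a e with hb
  set C := cM c with hC
  have hCe : C = 2 * c + 10 := rfl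
  have hb2 : 2 ≤ b := by
    rw [hb]
    unfold bb
    have h1 : 1 ≤ (e + 1) * (e + 2) := Nat.one_le_iff_ne_zero.2 (by positivity)
    calc 2 ≤ 1 * (a + 5) := by omega
      _ ≤ (e + 1) * (e + 2) * (a + 5) := Nat.mul_le_mul_right _ h1
  obtain ⟨L1, hL1⟩ := (hT a e).2.1 (2 * (c + 2) * b + (1 + (C + 8) * b) + 1)
  obtain ⟨L2, hL2⟩ := (hT a e).2.2
  refine ⟨L1 + L2 + 64, fun L hL r hr => ?_⟩
  have hLp : 1 ≤ L := by omega
  have ht := hL1 L (by omega)
  obtain ⟨hDU, hDL⟩ := hL2 L (by omega)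
  obtain ⟨t1, t2, t3, t4⟩ := (hT a e).1 L hLp
  obtain ⟨hrL, hrD⟩ := t4 r hr
  set t := tj a e L with htd
  have hU1 : 1 ≤ Uj a e L := Nat.one_le_iff_ne_zero.2 (by unfold Uj; positivity)
  have hlog : Nat.log 2 L + 1 ≤ b * (t + 1) := by
    have h1 : Nat.log 2 L < b * (t + 1) := by
      rw [htd]
      unfold tj
      rw [← hb]
      exact Nat.lt_mul_div_succ _ (by omega)
    omega
  have hC0 : C0j c L ≤ t * sj a e L := by
    unfold C0j sj
    rw [← htd]
    have h1 : 2 * (c + 2) * b ≤ 2 ^ (t * (a + 1)) := by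
      have h2 : 2 * (c + 2) * b ≤ t * (a + 1) := by
        calc 2 * (c + 2) * b ≤ t * 1 := by omega
          _ ≤ t * (a + 1) := Nat.mul_le_mul_left _ (by omega)
      exact h2.trans Nat.lt_two_pow_self.le
    calc (c + 2) * (Nat.log 2 L + 1) ≤ (c + 2) * (b * (t + 1)) := Nat.mul_le_mul_left _ hlog
      _ ≤ (c + 2) * (b * (2 * t)) :=
          Nat.mul_le_mul_left _ (Nat.mul_le_mul_left _ (by omega))
      _ = t * (2 * (c + 2) * b) := by ring
      _ ≤ t * 2 ^ (t * (a + 1)) := Nat.mul_le_mul_left _ h1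
  have g1 : r * C0j c L ≤ Dj a e L := (Nat.mul_le_mul_left r hC0).trans hrD
  have g2 : mj a e L ≤ L := by
    unfold mj
    rw [← htd]
    calc Dj a e L * 2 ^ t ≤ Dj a e L * 2 ^ (2 * t) :=
          Nat.mul_le_mul_left _ (Nat.pow_le_pow_right (by norm_num) (by omega))
      _ ≤ Uj a e L ^ (e + 1) := hDU
      _ ≤ Uj a e L ^ (e + 2) := Nat.pow_le_pow_right hU1 (by omega)
      _ ≤ L := t3
  have hL2L : L ≤ 2 ^ L := Nat.lt_two_pow_self.le
  have h4 : 2 ^ (L + 2) = 4 * 2 ^ L := by rw [pow_add]; ring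
  have hP := hN (L ^ (C + 8)) (by positivity)
  have hPlo : L ^ (C + 8) ≤ Pj C L := hP.2.1
  have hPhi : Pj C L ≤ 2 * L ^ (C + 8) := hP.2.2
  have hP2 : Pj C L ≤ 2 ^ L := by
    have h2t : 2 ^ t * 2 ^ t ≤ L := by
      refine le_trans ?_ t1
      rw [← pow_add]
      exact Nat.pow_le_pow_right (by norm_num) (by nlinarith)
    have ht1 : t + 1 ≤ 2 ^ t := Nat.lt_two_pow_self
    calc Pj C L ≤ 2 * L ^ (C + 8) := hPhi
      _ ≤ 2 * (2 ^ (b * (t + 1))) ^ (C + 8) :=
          Nat.mul_le_mul_left 2 (Nat.pow_le_pow_left t2.le _)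
      _ = 2 ^ (1 + (C + 8) * (b * (t + 1))) := by
          rw [← pow_mul, pow_add, pow_one]
          congr 2
          ring
      _ ≤ 2 ^ L := by
          refine Nat.pow_le_pow_right (by norm_num) ?_
          calc 1 + (C + 8) * (b * (t + 1)) ≤ (1 + (C + 8) * b) * (t + 1) := by nlinarith
            _ ≤ 2 ^ t * 2 ^ t := by
                refine Nat.mul_le_mul ?_ ht1
                have : 1 + (C + 8) * b ≤ t := by omega
                omega
            _ ≤ L := h2t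
  have hLr : (1 : ℝ) ≤ L := by exact_mod_cast hLp
  have hL64 : (64 : ℝ) ≤ L := by exact_mod_cast (by omega : 64 ≤ L)
  have hLpos : (0 : ℝ) < L := by linarith
  refine ⟨g1, ⟨g2, by omega⟩, by omega, ?_, ?_⟩
  · have e1 : ((r * C0j c L * Dj a e L : ℕ) : ℝ) ≤ (L : ℝ) ^ 2 := by
      have : r * C0j c L * Dj a e L ≤ L ^ 2 := by
        rw [pow_two]
        exact Nat.mul_le_mul (g1.trans hDL) hDL
      exact_mod_cast this
    have hPr : ((L : ℝ)) ^ (C + 8) ≤ Pj C L := by exact_mod_cast hPlo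
    have hP0 : (0 : ℝ) ≤ Pj C L := by positivity
    have e2 : (kVj c L : ℝ) * μj c L = 2 * (L : ℝ) ^ 2 := by
      unfold kVj μj
      push_cast
      have : (L : ℝ) ^ (c + 6) = (L : ℝ) ^ (c + 4) * (L : ℝ) ^ 2 := by rw [← pow_add]
      rw [this]
      field_simp
    have e3 : (kVj c L : ℝ) ^ 2 * L ≤ (L : ℝ) ^ 2 * Pj C L := by
      have h5 : (kVj c L : ℝ) ^ 2 * L = 4 * (L : ℝ) ^ (2 * c + 13) := by
        unfold kVj
        push_cast
        rw [mul_pow, ← pow_mul]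
        have : 2 * c + 13 = (c + 6) * 2 + 1 := by ring
        rw [this, pow_succ]
        ring
      rw [h5]
      calc 4 * (L : ℝ) ^ (2 * c + 13) ≤ (L : ℝ) ^ 7 * (L : ℝ) ^ (2 * c + 13) := by
            refine mul_le_mul_of_nonneg_right ?_ (by positivity)
            calc (4 : ℝ) ≤ L := by linarith
              _ = (L : ℝ) ^ 1 := (pow_one _).symm
              _ ≤ (L : ℝ) ^ 7 := pow_le_pow_right₀ hLr (by norm_num)
        _ = (L : ℝ) ^ 2 * (L : ℝ) ^ (C + 8) := by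
            rw [← pow_add, ← pow_add, hCe]
            congr 1
            ring
        _ ≤ (L : ℝ) ^ 2 * Pj C L := mul_le_mul_of_nonneg_left hPr (by positivity)
    rw [e2]
    have e4 : ((r * C0j c L * Dj a e L : ℕ) : ℝ) * Pj C L ≤ (L : ℝ) ^ 2 * Pj C L :=
      mul_le_mul_of_nonneg_right e1 hP0
    calc ((r * C0j c L * Dj a e L : ℕ) : ℝ) * Pj C L + (kVj c L : ℝ) ^ 2 * L
        ≤ (L : ℝ) ^ 2 * Pj C L + (L : ℝ) ^ 2 * Pj C L := add_le_add e4 e3
      _ = 2 * (L : ℝ) ^ 2 * Pj C L := by ring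
  · have h6 : (L : ℝ) ^ (c + 2) ≤ 2 ^ C0j c L := by
      have h7 : L ^ (c + 2) ≤ 2 ^ C0j c L := by
        calc L ^ (c + 2) ≤ (2 ^ (Nat.log 2 L + 1)) ^ (c + 2) :=
              Nat.pow_le_pow_left (Nat.lt_pow_succ_log_self (by norm_num) L).le _
          _ = 2 ^ C0j c L := by
              rw [← pow_mul]
              unfold C0j
              congr 1
              ring
      exact_mod_cast h7
    have h8 : (r : ℝ) ≤ L := by exact_mod_cast hrL
    have h9 : (0 : ℝ) < (L : ℝ) ^ (c + 2) := by positivity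
    calc (r : ℝ) / 2 ^ C0j c L ≤ (L : ℝ) / 2 ^ C0j c L :=
          div_le_div_of_nonneg_right h8 (by positivity)
      _ ≤ (L : ℝ) / (L : ℝ) ^ (c + 2) := div_le_div_of_nonneg_left hLpos.le h9 h6
      _ ≤ 1 / (64 * (L : ℝ) ^ c) := by
          rw [div_le_div_iff₀ h9 (by positivity)]
          calc (L : ℝ) * (64 * (L : ℝ) ^ c) = 64 * (L : ℝ) ^ (c + 1) := by ring
            _ ≤ L * (L : ℝ) ^ (c + 1) := mul_le_mul_of_nonneg_right hL64 (by positivity)
            _ = 1 * (L : ℝ) ^ (c + 2) := by ring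

end Pool.Agent.Helper45.AF
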